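import Pool.Agent.H150.Cov.Even

/-!
# Covering families in `Z_s^q`: the inertia bound

A family `F ⊆ Z_s^q` is covering if the difference of any two distinct members takes every value of
`Z_s` in some coordinate; `R s q` is the largest size of a covering family.

* For `κ` let `E`, `O` be the sums of the binomial coefficients `C(q,k)` over the even, the odd
  `k ≡ κ (mod s)`. If `E ≠ O` then `R(s,q) ≤ max(E, O)`.
* Let `s` be even and let `C_κ` be the sum of the `C(q,k)` over all `k ≡ κ (mod s)`. If `κ` and `κ'`
  have the same parity and `C_κ' < C_κ` then `R(s,q+1) ≤ C_κ`.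
* So `R(s,q+1) ≤ (1/(2s) + cos(π/(2s))^q) 2^(q+1)` for every `s ≥ 3`; in particular
  `R(3,q) ≤ (1/6 + o(1)) 2^q` and `R(4,q) ≤ (1/8 + o(1)) 2^q`.
* `R(3,q) ≥ C(q, ⌊(q-1)/2⌋)` for all `q ≥ 1`, with equality for `q ≤ 9`.

Proof. Let `ω` be a primitive `s`-th root of unity and let `P_v` be the vector with the entries
`ω^(∑_{i ∈ S} v_i)`, `S ⊆ {1, …, q}`. For a real function `g` on `Z_s` let `D` be the diagonal matrix
with the entries `(-1)^|S| g(|S|)`. By Fourier expansion of `g` the product `P_w^* D P_v` is a
combination of the `s` products `∏_i (1 - ω^(v_i - w_i + t))`, `t ∈ Z_s`, each of which has a zero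
factor if `v ≠ w` are in a covering family. So on the span of the `P_v`, `v ∈ F`, the Hermitian form
`D` is the multiple `∑_k C(q,k) (-1)^k g(k)` of the standard form in the coordinates with respect to
the `P_v`. If this multiple is positive, then `|F|` is at most the number of positive entries of `D`.
Take for `g` the indicator function of one residue class (up to sign). For even `s` subtract the first
coordinate of the vectors from the others; then all differences except `0` occur in the other
coordinates, and the difference of the indicator functions of two classes, the Fourier expansion of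
which does not contain the product with `t = 0`, can be used.
-/

set_option autoImplicit false

namespace Pool.Agent.Results.MP_28ad66_co.InertiaBound

open Finset

/-- The difference of any two distinct members takes every value of `Z_s` in some coordinate. -/
def IsCovering {s q : ℕ} (F : Finset (Fin q → ZMod s)) : Prop :=
  ∀ v ∈ F, ∀ w ∈ F, v ≠ w → ∀ t : ZMod s, ∃ i, v i - w i = t

/-- The largest size of a covering family in `Z_s^q`. -/
noncomputable def R (s q : ℕ) : ℕ :=
  sSup {n | ∃ F : Finset (Fin q → ZMod s), IsCovering F ∧ F.card = n}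

/-- The sum of the binomial coefficients `C(q,k)` with `k ≡ κ (mod s)` and `k ≡ ε (mod 2)`. -/
def classSum (s q κ ε : ℕ) : ℕ :=
  ∑ k ∈ (Finset.range (q + 1)).filter (fun k => k % s = κ % s ∧ k % 2 = ε), q.choose k

theorem result :
    (∀ s q κ : ℕ, 2 ≤ s → classSum s q κ 0 ≠ classSum s q κ 1 →
      R s q ≤ max (classSum s q κ 0) (classSum s q κ 1)) ∧
    (∀ s q κ κ' : ℕ, 2 ≤ s → Even s → κ % 2 = κ' % 2 →
      classSum s q κ' (κ' % 2) < classSum s q κ (κ % 2) → R s (q + 1) ≤ classSum s q κ (κ % 2)) ∧
    (∀ s q : ℕ, 3 ≤ s →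
      (R s (q + 1) : ℝ) ≤ (1 / (2 * s) + Real.cos (Real.pi / (2 * s)) ^ q) * 2 ^ (q + 1)) ∧
    (∀ q : ℕ, 1 ≤ q → q.choose ((q - 1) / 2) ≤ R 3 q) ∧
    (∀ q : ℕ, 1 ≤ q → q ≤ 9 → R 3 q = q.choose ((q - 1) / 2)) :=
  ⟨fun s q κ hs h => Pool.Agent.H150.Cov.R_le_max hs q κ h,
    fun s q κ κ' hs he hk h => Pool.Agent.H150.Cov.R_even_class hs he q κ κ' hk h,
    fun s q hs => Pool.Agent.H150.Cov.R_all hs q,
    fun q hq => Pool.Agent.H150.Cov.lower q hq,
    fun q hq hq9 => Pool.Agent.H150.Cov.exact_le_nine q hq hq9⟩

end Pool.Agent.Results.MP_28ad66_co.InertiaBound
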